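import Mathlib
import Pool.Agent.helper68.FY.Spec

set_option autoImplicit false

namespace Pool.Agent.helper68.FY

open Finset

theorem FRMX_plane (e₁ e₂ g : V4) (k l : Fin 4) (hP : pl e₁ e₂ k l ≠ 0)
    (hg : ∀ i j k, m3 e₁ e₂ g i j k = 0) :
    ∀ i, cp (f2 e₁ e₂) g i = -dt g * f1 e₁ e₂ i := by
  have hG : ∀ i, pl e₁ e₂ k l * g i = pl g e₂ k l * e₁ i + pl e₁ g k l * e₂ i := by
    intro i
    have h := hg k l i
    unfold m3 at h
    unfold pl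
    linear_combination h
  set P := pl e₁ e₂ k l with hPdef
  set A := pl g e₂ k l with hA
  set B := pl e₁ g k l with hB
  have h0 := hG 0
  have h1 := hG 1
  have h2 := hG 2
  have h3 := hG 3
  have hP2 : P ^ 2 ≠ 0 := pow_ne_zero 2 hP
  intro i
  apply mul_left_cancel₀ hP2
  fin_cases i
  · simp only [cp, f2, f1, dt, Fin.zero_eta, Matrix.cons_val_zero, Matrix.cons_val_one, Matrix.cons_val]
    calc P ^ 2 * (pl e₁ e₂ 2 3 * g 0 ^ 2 + (pl e₁ e₂ 1 2 - pl e₁ e₂ 0 3) * (g 0 * g 2) + pl e₁ e₂ 0 1 * g 2 ^ 2)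
        = pl e₁ e₂ 2 3 * (P * g 0) ^ 2 + (pl e₁ e₂ 1 2 - pl e₁ e₂ 0 3) * ((P * g 0) * (P * g 2)) +
            pl e₁ e₂ 0 1 * (P * g 2) ^ 2 := by ring
      _ = -((P * g 0) * (P * g 3) - (P * g 1) * (P * g 2)) * pl e₁ e₂ 0 2 := by
          rw [h0, h1, h2, h3]; unfold pl; ring
      _ = _ := by ring
  · simp only [cp, f2, f1, dt, Fin.mk_one, Matrix.cons_val_zero, Matrix.cons_val_one, Matrix.cons_val]
    calc P ^ 2 * (2 * pl e₁ e₂ 2 3 * (g 0 * g 1) + (pl e₁ e₂ 1 2 - pl e₁ e₂ 0 3) * (g 0 * g 3 + g 1 * g 2) +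
          2 * pl e₁ e₂ 0 1 * (g 2 * g 3))
        = 2 * pl e₁ e₂ 2 3 * ((P * g 0) * (P * g 1)) + (pl e₁ e₂ 1 2 - pl e₁ e₂ 0 3) *
            ((P * g 0) * (P * g 3) + (P * g 1) * (P * g 2)) + 2 * pl e₁ e₂ 0 1 * ((P * g 2) * (P * g 3)) := by ring
      _ = -((P * g 0) * (P * g 3) - (P * g 1) * (P * g 2)) * (pl e₁ e₂ 0 3 + pl e₁ e₂ 1 2) := by
          rw [h0, h1, h2, h3]; unfold pl; ring
      _ = _ := by ring
  · simp only [cp, f2, f1, dt, Fin.reduceFinMk, Matrix.cons_val_zero, Matrix.cons_val_one, Matrix.cons_val]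
    calc P ^ 2 * (pl e₁ e₂ 2 3 * g 1 ^ 2 + (pl e₁ e₂ 1 2 - pl e₁ e₂ 0 3) * (g 1 * g 3) + pl e₁ e₂ 0 1 * g 3 ^ 2)
        = pl e₁ e₂ 2 3 * (P * g 1) ^ 2 + (pl e₁ e₂ 1 2 - pl e₁ e₂ 0 3) * ((P * g 1) * (P * g 3)) +
            pl e₁ e₂ 0 1 * (P * g 3) ^ 2 := by ring
      _ = -((P * g 0) * (P * g 3) - (P * g 1) * (P * g 2)) * pl e₁ e₂ 1 3 := by
          rw [h0, h1, h2, h3]; unfold pl; ring
      _ = _ := by ring

theorem FRMX_f1_zero (e₁ e₂ : V4) (h1 : f1 e₁ e₂ = 0) (h2 : f2 e₁ e₂ = 0) : ∀ k l, pl e₁ e₂ k l = 0 := by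
  have a0 : pl e₁ e₂ 0 2 = 0 := by simpa [f1] using congrFun h1 0
  have a1 : pl e₁ e₂ 0 3 + pl e₁ e₂ 1 2 = 0 := by simpa [f1] using congrFun h1 1
  have a2 : pl e₁ e₂ 1 3 = 0 := by simpa [f1] using congrFun h1 2
  have b0 : pl e₁ e₂ 2 3 = 0 := by simpa [f2] using congrFun h2 0
  have b1 : pl e₁ e₂ 1 2 - pl e₁ e₂ 0 3 = 0 := by simpa [f2] using congrFun h2 1
  have b2 : pl e₁ e₂ 0 1 = 0 := by simpa [f2] using congrFun h2 2
  have c1 : pl e₁ e₂ 1 2 = 0 := by omega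
  have c2 : pl e₁ e₂ 0 3 = 0 := by omega
  have hanti : ∀ k l, pl e₁ e₂ k l = - pl e₁ e₂ l k := by intro k l; unfold pl; ring
  have hself : ∀ k, pl e₁ e₂ k k = 0 := by intro k; unfold pl; ring
  have d0 : pl e₁ e₂ 2 0 = 0 := by rw [hanti, a0, neg_zero]
  have d2 : pl e₁ e₂ 3 1 = 0 := by rw [hanti, a2, neg_zero]
  have d3 : pl e₁ e₂ 3 2 = 0 := by rw [hanti, b0, neg_zero]
  have d4' : pl e₁ e₂ 1 0 = 0 := by rw [hanti, b2, neg_zero]
  have d5 : pl e₁ e₂ 2 1 = 0 := by rw [hanti, c1, neg_zero]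
  have d6 : pl e₁ e₂ 3 0 = 0 := by rw [hanti, c2, neg_zero]
  intro k l
  fin_cases k <;> fin_cases l <;> first | exact hself _ | assumption

theorem FRMX : FRM_stmt := by
  intro p _ x y e₁ e₂ he₁ he₂ hne
  obtain ⟨u1, u2⟩ : rp p e₁ x y := he₁
  obtain ⟨v1, v2⟩ : rp p e₂ x y := he₂
  have key1 : ∀ b b' : ZMod p, rl p e₁ b b' → rl p e₂ b b' → va p (f1 e₁ e₂) b ∧ va p (f2 e₁ e₂) b' := by
    intro b b' h1 h2
    unfold rl at h1 h2
    constructor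
    · simp only [va, f1, pl, Matrix.cons_val_zero, Matrix.cons_val_one, Matrix.cons_val]
      push_cast
      linear_combination ((e₂ 2 : ZMod p) * b + (e₂ 3 : ZMod p)) * h1 - ((e₁ 2 : ZMod p) * b + (e₁ 3 : ZMod p)) * h2
    · simp only [va, f2, pl, Matrix.cons_val_zero, Matrix.cons_val_one, Matrix.cons_val]
      push_cast
      linear_combination ((e₁ 0 : ZMod p) - b' * (e₁ 2 : ZMod p)) * h2 - ((e₂ 0 : ZMod p) - b' * (e₂ 2 : ZMod p)) * h1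
  obtain ⟨w1, w3⟩ := key1 x.1 y.1 u1 v1
  obtain ⟨w2, w4⟩ := key1 x.2 y.2 u2 v2
  refine ⟨⟨w1, w2, w3, w4⟩, ?_⟩
  intro g hg hdt
  obtain ⟨k, l, hkl⟩ := hne
  have hpl := FRMX_plane e₁ e₂ g k l hkl hg
  have hn1 : f1 e₁ e₂ ≠ 0 ∧ f2 e₁ e₂ ≠ 0 := by
    have h21 : f2 e₁ e₂ = 0 → f1 e₁ e₂ = 0 := by
      intro h
      funext i
      have := hpl i
      rw [h] at this
      have h0 : cp (0 : V3) g i = 0 := by
        fin_cases i <;> simp [cp]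
      rw [h0] at this
      have h3 : dt g * f1 e₁ e₂ i = 0 := by linarith
      rcases mul_eq_zero.mp h3 with h4 | h4
      · exact absurd h4 hdt
      · exact h4
    have h12 : f1 e₁ e₂ = 0 → f2 e₁ e₂ = 0 := by
      intro h
      have hc : ∀ i, cp (f2 e₁ e₂) g i = 0 := by
        intro i
        rw [hpl i, h]
        simp
      -- compose with the adjugate
      have c0 := hc 0
      have c1 := hc 1
      have c2 := hc 2
      simp only [cp, Matrix.cons_val_zero, Matrix.cons_val_one, Matrix.cons_val] at c0 c1 c2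
      have hd2 : dt g ^ 2 ≠ 0 := pow_ne_zero 2 hdt
      funext i
      apply mul_left_cancel₀ hd2
      rw [Pi.zero_apply, mul_zero]
      unfold dt
      fin_cases i
      · simp only [Fin.zero_eta]
        linear_combination g 3 ^ 2 * c0 - g 2 * g 3 * c1 + g 2 ^ 2 * c2
      · simp only [Fin.mk_one]
        linear_combination -2 * g 1 * g 3 * c0 + (g 0 * g 3 + g 1 * g 2) * c1 - 2 * g 0 * g 2 * c2
      · simp only [Fin.reduceFinMk]
        linear_combination g 1 ^ 2 * c0 - g 0 * g 1 * c1 + g 0 ^ 2 * c2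
    constructor
    · intro h
      exact hkl (FRMX_f1_zero e₁ e₂ h (h12 h) k l)
    · intro h
      exact hkl (FRMX_f1_zero e₁ e₂ (h21 h) h k l)
  refine ⟨hn1.1, hn1.2, ?_⟩
  intro i j
  rw [hpl i, hpl j]
  ring

end Pool.Agent.helper68.FY
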