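import Mathlib
import Pool.Agent.helper68.FY.Spec

set_option autoImplicit false

namespace Pool.Agent.helper68.FY

open Finset

theorem NPX (h : NPA_stmt) : NP_stmt := by
  intro Q D P c i j hQ hc hP hD F hF
  classical
  set F1 := F.filter fun w => nm w.1 ≤ nm w.2 with hF1
  set F2 := F.filter fun w => ¬ nm w.1 ≤ nm w.2 with hF2
  have hcard : F1.card + F2.card = F.card := Finset.card_filter_add_card_filter_not _
  have h1 : F1.card * (P i j).natAbs ≤ 96 * D * Q ^ 2 := by
    refine h Q D P c i j hQ hc hP hD F1 fun w hw => ?_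
    rw [hF1, mem_filter] at hw
    obtain ⟨a, b, d⟩ := hF w hw.1
    exact ⟨hw.2, b, d⟩
  have h2 : F2.card * (P i j).natAbs ≤ 96 * D * Q ^ 2 := by
    have h3 : (F2.image Prod.swap).card = F2.card :=
      Finset.card_image_of_injective _ Prod.swap_injective
    rw [← h3]
    refine h Q D P (-c) i j hQ (neg_ne_zero.mpr hc) hP (by rwa [Int.natAbs_neg]) _ fun w hw => ?_
    rw [mem_image] at hw
    obtain ⟨w', hw', rfl⟩ := hw
    rw [hF2, mem_filter] at hw'
    obtain ⟨a, b, d⟩ := hF w' hw'.1
    refine ⟨(not_le.mp hw'.2).le, a, fun k l => ?_⟩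
    have := d k l
    simp only [Prod.fst_swap, Prod.snd_swap]
    unfold pl at this ⊢
    linear_combination -this
  calc F.card * (P i j).natAbs = F1.card * (P i j).natAbs + F2.card * (P i j).natAbs := by
        rw [← add_mul, hcard]
    _ ≤ 96 * D * Q ^ 2 + 96 * D * Q ^ 2 := Nat.add_le_add h1 h2
    _ = 192 * D * Q ^ 2 := by ring

end Pool.Agent.helper68.FY
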