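import Mathlib
import Pool.Agent.helper68.FY.Spec

set_option autoImplicit false

namespace Pool.Agent.helper68.FY

open Finset

theorem RESX_ev (c a : ℝ) (ha : 0 < a) : ∃ N : ℕ, ∀ p : ℕ, N < p → c ≤ (p : ℝ) ^ a := by
  have h1 : Filter.Tendsto (fun p : ℕ => (p : ℝ) ^ a) Filter.atTop Filter.atTop :=
    (tendsto_rpow_atTop ha).comp tendsto_natCast_atTop_atTop
  obtain ⟨N, hN⟩ := Filter.eventually_atTop.1 (h1.eventually_ge_atTop c)
  exact ⟨N, fun p hp => hN p hp.le⟩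

theorem RESX_norm (p : ℕ) [Fact p.Prime] (χ : MulChar (ZMod p) ℂ) (x : ZMod p) (hx : x ≠ 0) :
    ‖χ x‖ = 1 := by
  have hpos : 0 < Fintype.card (ZMod p)ˣ := Fintype.card_pos
  have h6 : (χ x) ^ (Fintype.card (ZMod p)ˣ) = 1 := by
    rw [← MulChar.pow_apply' χ hpos.ne', MulChar.pow_card_eq_one χ]
    exact MulChar.one_apply (isUnit_iff_ne_zero.mpr hx)
  exact Complex.norm_eq_one_of_pow_eq_one h6 hpos.ne'

theorem RESX_norm_le (p : ℕ) [Fact p.Prime] (χ : MulChar (ZMod p) ℂ) (x : ZMod p) :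
    ‖χ x‖ ≤ 1 := by
  by_cases hx : x = 0
  · rw [hx, MulChar.map_zero, norm_zero]; norm_num
  · exact (RESX_norm p χ x hx).le

theorem RESX_core (p : ℕ) [Fact p.Prime] (χ : MulChar (ZMod p) ℂ) (A B : Finset (ZMod p))
    (β : ZMod p → ℂ) (hβ : ∀ w, ‖β w‖ ≤ 1) (Q : ℕ) (a b c d : ZMod p) (hdet : a * d - b * c ≠ 0)
    (hQp : Q < p)
    (hA : ∀ z ∈ A, ∃ x y : ℕ, 1 ≤ x ∧ x ≤ Q ∧ 1 ≤ y ∧ y ≤ Q ∧ c * x + d * y ≠ 0 ∧
      z = (a * x + b * y) / (c * x + d * y)) :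
    ∃ (B' : Finset (ZMod p)) (β' : ZMod p → ℂ), (∀ w, ‖β' w‖ ≤ 1) ∧ B'.card ≤ B.card ∧
      B.card ≤ B'.card + 1 ∧
      ∑ z ∈ A, ‖∑ w ∈ B, β w * χ (z + w)‖ ≤ (Q : ℝ) ^ 2 + S1 p χ B' β' Q := by
  classical
  set B0 := B.filter fun w => a + c * w ≠ 0 with hB0
  set B1 := B.filter fun w => ¬ (a + c * w ≠ 0) with hB1
  have hB1card : B1.card ≤ 1 := by
    rw [Finset.card_le_one]
    intro w hw w' hw'
    rw [hB1, mem_filter] at hw hw'
    have e1 : a + c * w = 0 := not_not.mp hw.2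
    have e2 : a + c * w' = 0 := not_not.mp hw'.2
    by_contra hne
    have hc : c * (w - w') = 0 := by linear_combination e1 - e2
    rcases mul_eq_zero.mp hc with h | h
    · have ha : a = 0 := by rw [h, zero_mul, add_zero] at e1; exact e1
      exact hdet (by rw [h, ha]; ring)
    · exact hne (sub_eq_zero.mp h)
  have hcard : B0.card + B1.card = B.card := Finset.card_filter_add_card_filter_not _
  set st : ZMod p → ZMod p := fun w => (b + d * w) / (a + c * w) with hst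
  set inv : ZMod p → ZMod p := fun u => (a * u - b) / (d - c * u) with hinv
  have hmem0 : ∀ w ∈ B0, a + c * w ≠ 0 := fun w hw => (mem_filter.mp hw).2
  have hinvst : ∀ w ∈ B0, inv (st w) = w := by
    intro w hw
    have h := hmem0 w hw
    have hsw : st w * (a + c * w) = b + d * w := div_mul_cancel₀ _ h
    have h1 : a * st w - b = (a * d - b * c) * w / (a + c * w) := by
      rw [eq_div_iff h]
      linear_combination a * hsw
    have h2 : d - c * st w = (a * d - b * c) / (a + c * w) := by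
      rw [eq_div_iff h]
      linear_combination -c * hsw
    simp only [hinv]
    rw [h1, h2, div_div_div_cancel_right₀ h, mul_div_cancel_left₀ _ hdet]
  have hinj : Set.InjOn st (B0 : Set (ZMod p)) := by
    intro w hw w' hw' he
    rw [← hinvst w hw, ← hinvst w' hw']
    exact congrArg inv he
  set β' : ZMod p → ℂ := fun u => β (inv u) * χ (a + c * inv u) with hβ'
  refine ⟨B0.image st, β', ?_, ?_, ?_, ?_⟩
  · intro u
    simp only [hβ']
    rw [norm_mul]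
    exact mul_le_one₀ (hβ _) (norm_nonneg _) (RESX_norm_le p χ _)
  · rw [Finset.card_image_of_injOn hinj]; omega
  · rw [Finset.card_image_of_injOn hinj]; omega
  · choose! X Y hX1 hXQ hY1 hYQ hne hz using hA
    have hterm : ∀ z ∈ A, ‖∑ w ∈ B, β w * χ (z + w)‖ ≤
        1 + ‖∑ u ∈ B0.image st, β' u * χ ((X z : ZMod p) + (Y z : ZMod p) * u)‖ := by
      intro z hzA
      have hsplit : ∑ w ∈ B, β w * χ (z + w) = ∑ w ∈ B0, β w * χ (z + w) + ∑ w ∈ B1, β w * χ (z + w) :=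
        (Finset.sum_filter_add_sum_filter_not _ _ _).symm
      rw [hsplit]
      refine (norm_add_le _ _).trans ?_
      rw [add_comm]
      refine add_le_add ?_ ?_
      · refine (norm_sum_le _ _).trans ?_
        calc ∑ w ∈ B1, ‖β w * χ (z + w)‖ ≤ ∑ w ∈ B1, (1 : ℝ) := by
              refine Finset.sum_le_sum fun w _ => ?_
              rw [norm_mul]
              exact mul_le_one₀ (hβ _) (norm_nonneg _) (RESX_norm_le p χ _)
          _ = B1.card := by rw [Finset.sum_const, nsmul_eq_mul, mul_one]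
          _ ≤ 1 := by exact_mod_cast hB1card
      · rw [Finset.sum_image hinj]
        have hden := hne z hzA
        have h1 : (∑ w ∈ B0, β w * χ (z + w)) * χ (c * X z + d * Y z) =
            ∑ w ∈ B0, β' (st w) * χ ((X z : ZMod p) + (Y z : ZMod p) * st w) := by
          rw [Finset.sum_mul]
          refine Finset.sum_congr rfl fun w hw => ?_
          simp only [hβ']
          rw [hinvst w hw, mul_assoc, mul_assoc, ← map_mul, ← map_mul]
          have h2 := hmem0 w hw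
          have hsw : st w * (a + c * w) = b + d * w := div_mul_cancel₀ _ h2
          have hz' : z * (c * X z + d * Y z) = a * X z + b * Y z := by
            have h4 := hz z hzA
            rw [eq_div_iff hden] at h4
            exact h4
          have h3 : (z + w) * (c * X z + d * Y z) = (a + c * w) * ((X z : ZMod p) + (Y z : ZMod p) * st w) := by
            linear_combination hz' - (Y z : ZMod p) * hsw
          rw [h3]
        rw [← h1, norm_mul, RESX_norm p χ _ hden, mul_one]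
    have hinjA : Set.InjOn (fun z => (X z, Y z)) (A : Set (ZMod p)) := by
      intro z hzA z' hz'A he
      have h1 : X z = X z' := congrArg Prod.fst he
      have h2 : Y z = Y z' := congrArg Prod.snd he
      rw [hz z hzA, hz z' hz'A, h1, h2]
    have hsub : A.image (fun z => (X z, Y z)) ⊆ Finset.Icc 1 Q ×ˢ Finset.Icc 1 Q := by
      intro v hv
      rw [mem_image] at hv
      obtain ⟨z, hzA, rfl⟩ := hv
      rw [mem_product, mem_Icc, mem_Icc]
      exact ⟨⟨hX1 z hzA, hXQ z hzA⟩, hY1 z hzA, hYQ z hzA⟩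
    have hAcard : (A.card : ℝ) ≤ (Q : ℝ) ^ 2 := by
      have h1 := Finset.card_le_card hsub
      rw [Finset.card_image_of_injOn hinjA, Finset.card_product, Nat.card_Icc] at h1
      have h2 : A.card ≤ Q ^ 2 := by
        simpa [sq] using h1
      exact_mod_cast h2
    calc ∑ z ∈ A, ‖∑ w ∈ B, β w * χ (z + w)‖
        ≤ ∑ z ∈ A, (1 + ‖∑ u ∈ B0.image st, β' u * χ ((X z : ZMod p) + (Y z : ZMod p) * u)‖) :=
          Finset.sum_le_sum hterm
      _ = A.card + ∑ z ∈ A, ‖∑ u ∈ B0.image st, β' u * χ ((X z : ZMod p) + (Y z : ZMod p) * u)‖ := by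
          rw [Finset.sum_add_distrib, Finset.sum_const, nsmul_eq_mul, mul_one]
      _ ≤ (Q : ℝ) ^ 2 + S1 p χ (B0.image st) β' Q := by
          refine add_le_add hAcard ?_
          have h1 : ∑ z ∈ A, ‖∑ u ∈ B0.image st, β' u * χ ((X z : ZMod p) + (Y z : ZMod p) * u)‖ =
              ∑ v ∈ A.image (fun z => (X z, Y z)),
                ‖∑ u ∈ B0.image st, β' u * χ ((v.1 : ZMod p) + (v.2 : ZMod p) * u)‖ := by
            rw [Finset.sum_image hinjA]
          rw [h1]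
          exact Finset.sum_le_sum_of_subset_of_nonneg hsub fun _ _ _ => norm_nonneg _

theorem RESX (hFIN : FIN_stmt) : RES_stmt := by
  intro ε hε
  obtain ⟨p₁, δ₁, hδ₁, H⟩ := hFIN (ε / 2) (by positivity)
  set m : ℝ := min δ₁ ε with hm
  have hm0 : 0 < m := lt_min hδ₁ hε
  obtain ⟨N₁, hN₁⟩ := RESX_ev 2 (ε / 2) (by positivity)
  obtain ⟨N₂, hN₂⟩ := RESX_ev 2 (m / 2) (by positivity)
  refine ⟨max p₁ (max N₁ N₂), m / 2, by positivity, ?_⟩
  intro p _ hp χ hχ A B β hβ Q hQε hQ4 hQB hQB4 a b c d hdet hA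
  have hp1 : p₁ < p := lt_of_le_of_lt (le_max_left _ _) hp
  have hp2 : N₁ < p := lt_of_le_of_lt ((le_max_left _ _).trans (le_max_right _ _)) hp
  have hp3 : N₂ < p := lt_of_le_of_lt ((le_max_right _ _).trans (le_max_right _ _)) hp
  have hpr : p.Prime := Fact.out
  have hP1 : (1 : ℝ) ≤ p := by exact_mod_cast hpr.one_lt.le
  have hP0 : (0 : ℝ) < p := by linarith
  have hQ1 : (1 : ℝ) ≤ Q := (Real.one_le_rpow hP1 hε.le).trans hQε
  have hQp : Q < p := by
    by_contra hcon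
    push Not at hcon
    have h1 : p ^ 4 ≤ p := (Nat.pow_le_pow_left hcon 4).trans hQ4
    have h2 : p ^ 1 < p ^ 4 := Nat.pow_lt_pow_right hpr.one_lt (by norm_num)
    rw [pow_one] at h2
    omega
  have ht2 : (2 : ℝ) ≤ (p : ℝ) ^ (ε / 2) := hN₁ p hp2
  have hQ2 : (Q : ℝ) ^ 2 ≤ (p : ℝ) ^ (1 / 2 : ℝ) := by
    have h1 : ((Q : ℝ) ^ 2) ^ 2 ≤ ((p : ℝ) ^ (1 / 2 : ℝ)) ^ 2 := by
      rw [← Real.rpow_natCast ((p : ℝ) ^ (1 / 2 : ℝ)), ← Real.rpow_mul hP0.le]
      have e1 : ((1 : ℝ) / 2 * ((2 : ℕ) : ℝ)) = 1 := by norm_num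
      have e2 : ((Q : ℝ) ^ 2) ^ 2 = (Q : ℝ) ^ 4 := by ring
      have e3 : (Q : ℝ) ^ 4 ≤ (p : ℝ) := by exact_mod_cast hQ4
      rw [e1, Real.rpow_one, e2]
      exact e3
    exact (pow_le_pow_iff_left₀ (by positivity) (by positivity) (by norm_num)).1 h1
  have hQ20 : (0 : ℝ) < (Q : ℝ) ^ 2 := by positivity
  -- |B| ≥ p^ε
  have hBε : (p : ℝ) ^ ε ≤ B.card := by
    have h1 : (p : ℝ) ^ (1 / 2 + ε) ≤ (p : ℝ) ^ (1 / 2 : ℝ) * B.card :=
      hQB.trans (mul_le_mul_of_nonneg_right hQ2 (Nat.cast_nonneg _))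
    rw [Real.rpow_add hP0] at h1
    exact le_of_mul_le_mul_left h1 (by positivity)
  have hεε : (p : ℝ) ^ ε = (p : ℝ) ^ (ε / 2) * (p : ℝ) ^ (ε / 2) := by
    rw [← Real.rpow_add hP0]; congr 1; ring
  have hB2 : (2 : ℝ) ≤ B.card := by
    refine le_trans ?_ hBε
    rw [hεε]
    nlinarith
  obtain ⟨B', β', hβ', hB'1, hB'2, hmain⟩ := RESX_core p χ A B β hβ Q a b c d hdet hQp hA
  have hB'2r : (B.card : ℝ) ≤ B'.card + 1 := by exact_mod_cast hB'2
  have hB'1r : (B'.card : ℝ) ≤ B.card := by exact_mod_cast hB'1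
  have hhalf : (B.card : ℝ) / 2 ≤ B'.card := by linarith
  have hS := H p hp1 χ hχ B' β' hβ' Q
    ((Real.rpow_le_rpow_of_exponent_le hP1 (by linarith)).trans hQε) hQ4 ?_ ?_
  · have h1 : S1 p χ B' β' Q ≤ (p : ℝ) ^ (-m) * (Q : ℝ) ^ 2 * B.card := by
      refine hS.trans ?_
      have h2 : (p : ℝ) ^ (-δ₁) ≤ (p : ℝ) ^ (-m) :=
        Real.rpow_le_rpow_of_exponent_le hP1 (neg_le_neg (min_le_left _ _))
      gcongr
    have h3 : (Q : ℝ) ^ 2 ≤ (p : ℝ) ^ (-m) * (Q : ℝ) ^ 2 * B.card := by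
      have h4 : (p : ℝ) ^ m ≤ B.card :=
        (Real.rpow_le_rpow_of_exponent_le hP1 (min_le_right _ _)).trans hBε
      have h5 : (1 : ℝ) ≤ (p : ℝ) ^ (-m) * B.card := by
        calc (1 : ℝ) = (p : ℝ) ^ (-m) * (p : ℝ) ^ m := by
              rw [← Real.rpow_add hP0]; simp
          _ ≤ _ := by gcongr
      nlinarith
    have h6 : 2 * (p : ℝ) ^ (-m) ≤ (p : ℝ) ^ (-(m / 2)) := by
      have h7 : (2 : ℝ) ≤ (p : ℝ) ^ (m / 2) := hN₂ p hp3
      calc 2 * (p : ℝ) ^ (-m) ≤ (p : ℝ) ^ (m / 2) * (p : ℝ) ^ (-m) := by gcongr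
        _ = (p : ℝ) ^ (-(m / 2)) := by
            rw [← Real.rpow_add hP0]; congr 1; ring
    calc ∑ z ∈ A, ‖∑ w ∈ B, β w * χ (z + w)‖ ≤ (Q : ℝ) ^ 2 + S1 p χ B' β' Q := hmain
      _ ≤ (p : ℝ) ^ (-m) * (Q : ℝ) ^ 2 * B.card + (p : ℝ) ^ (-m) * (Q : ℝ) ^ 2 * B.card :=
          add_le_add h3 h1
      _ = (2 * (p : ℝ) ^ (-m)) * (Q : ℝ) ^ 2 * B.card := by ring
      _ ≤ (p : ℝ) ^ (-(m / 2)) * (Q : ℝ) ^ 2 * B.card := by gcongr
  · have e : (1 : ℝ) / 2 + ε = (1 / 2 + ε / 2) + ε / 2 := by ring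
    rw [e, Real.rpow_add hP0] at hQB
    have h8 : (p : ℝ) ^ (1 / 2 + ε / 2) * 2 ≤ (Q : ℝ) ^ 2 * B.card :=
      le_trans (mul_le_mul_of_nonneg_left ht2 (by positivity)) hQB
    nlinarith [mul_le_mul_of_nonneg_left hhalf hQ20.le]
  · have e : (3 : ℝ) / 4 + ε = (3 / 4 + ε / 2) + ε / 2 := by ring
    rw [e, Real.rpow_add hP0] at hQB4
    have h8 : (p : ℝ) ^ (3 / 4 + ε / 2) * 2 ≤ (Q : ℝ) ^ 4 * B.card :=
      le_trans (mul_le_mul_of_nonneg_left ht2 (by positivity)) hQB4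
    have hQ40 : (0 : ℝ) ≤ (Q : ℝ) ^ 4 := by positivity
    nlinarith [mul_le_mul_of_nonneg_left hhalf hQ40]

end Pool.Agent.helper68.FY
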