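import Mathlib
import Pool.Agent.helper68.FY.Spec
import Pool.Agent.helper73.FY.FN1

set_option autoImplicit false

namespace Pool.Agent.helper68.FY

open Finset

/-- the algebra of the main term; `r4 = P^(1/4)` -/
theorem FN2X_phi (K C₁ C₂ C₃ t r4 q M L s D lg : ℝ) (hK : 0 ≤ K) (hC₁ : 0 ≤ C₁) (hC₂ : 0 ≤ C₂)
    (hC₃ : 0 ≤ C₃) (ht : 0 < t) (hr : 0 < r4) (hq : 0 < q) (hM : 0 < M)
    (hL : q / (16 * t ^ 10) ≤ L) (hs : s = 2 * C₁ * t * M ^ 3 / r4) (hD0 : 0 ≤ D) (hD : D ≤ C₂ * t)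
    (hl0 : 0 ≤ lg) (hlg : lg ≤ C₃ * t) (hqM : r4 ^ 3 * t ^ 120 ≤ q ^ 4 * M) :
    K * D ^ 2 * lg * s * r4 ^ 4 / (q * L ^ 3 * M ^ 4) ≤ 8192 * K * C₁ * C₂ ^ 2 * C₃ / t ^ 86 := by
  have hL0 : 0 < q / (16 * t ^ 10) := by positivity
  have hLp : 0 < L := lt_of_lt_of_le hL0 hL
  have hs0 : 0 ≤ s := by rw [hs]; positivity
  have h1 : K * D ^ 2 * lg * s * r4 ^ 4 ≤ K * (C₂ * t) ^ 2 * (C₃ * t) * s * r4 ^ 4 := by
    gcongr
  have h2 : q * (q / (16 * t ^ 10)) ^ 3 * M ^ 4 ≤ q * L ^ 3 * M ^ 4 := by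
    gcongr
  have h3 : K * D ^ 2 * lg * s * r4 ^ 4 / (q * L ^ 3 * M ^ 4) ≤
      K * (C₂ * t) ^ 2 * (C₃ * t) * s * r4 ^ 4 / (q * (q / (16 * t ^ 10)) ^ 3 * M ^ 4) := by
    gcongr
  refine h3.trans ?_
  have h4 : K * (C₂ * t) ^ 2 * (C₃ * t) * s * r4 ^ 4 / (q * (q / (16 * t ^ 10)) ^ 3 * M ^ 4) =
      8192 * K * C₁ * C₂ ^ 2 * C₃ * t ^ 34 * r4 ^ 3 / (q ^ 4 * M) := by
    rw [hs]
    field_simp
    ring
  rw [h4]
  have h6 : 8192 * K * C₁ * C₂ ^ 2 * C₃ * t ^ 34 * r4 ^ 3 / (q ^ 4 * M) ≤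
      8192 * K * C₁ * C₂ ^ 2 * C₃ * t ^ 34 * r4 ^ 3 / (r4 ^ 3 * t ^ 120) := by
    gcongr
  refine h6.trans (le_of_eq ?_)
  field_simp

set_option maxHeartbeats 4000000 in
theorem FN2X (hEN : EN_stmt) (hFNC : FNC_stmt) : FN2_stmt := by
  intro ε hε
  set η : ℝ := ε / 120 with hη
  have hη0 : 0 < η := by positivity
  obtain ⟨C₁, hC₁, hen⟩ := hEN η hη0
  obtain ⟨C₂, hC₂, hdiv⟩ := Pool.Agent.helper9.Tors.divisor_bound η hη0
  set k : ℕ := ⌈2 / η⌉₊ with hk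
  have hk30 : 2 / η ≤ (k : ℝ) := Nat.le_ceil _
  have hkpos : 0 < (k : ℝ) := lt_of_lt_of_le (by positivity) hk30
  have hk1 : 1 ≤ k := by exact_mod_cast hkpos
  have hkη : 2 ≤ η * k := by
    rw [div_le_iff₀ hη0] at hk30
    linarith
  set K : ℝ := (k : ℝ) ^ (2 * k) + 4 * (k : ℝ) ^ 2 with hK
  have hK0 : 0 ≤ K := by rw [hK]; positivity
  set C₂' : ℝ := C₂ * 4 ^ η with hC₂'
  set C₃ : ℝ := 1 + 2 / η with hC₃
  have hC₂'0 : 0 ≤ C₂' := by rw [hC₂']; positivity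
  have hC₃0 : 0 ≤ C₃ := by rw [hC₃]; positivity
  set γ : ℝ := min (60 * η) (60 * η / (2 * k)) with hγ
  have hγ0 : 0 < γ := by
    rw [hγ]
    refine lt_min (by positivity) (by positivity)
  have hγ1 : γ ≤ 60 * η := min_le_left _ _
  have hγ3 : γ ≤ 60 * η / (2 * k) := min_le_right _ _
  obtain ⟨N₁, hN₁⟩ := FN1_ev 2 (η / 2) (by positivity)
  obtain ⟨N₂, hN₂⟩ := FN1_ev (8192 * K * C₁ * C₂' ^ 2 * C₃) (η * 26) (by positivity)
  obtain ⟨N₃, hN₃⟩ := FN1_ev 126 (γ / 2) (by positivity)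
  refine ⟨max N₁ (max N₂ N₃), γ / 4, by positivity, ?_⟩
  intro p _ hp χ hχ B β hβ Q hQε hQ2 hQB
  have hp1 : N₁ < p := lt_of_le_of_lt (le_max_left _ _) hp
  have hp2 : N₂ < p := lt_of_le_of_lt ((le_max_left _ _).trans (le_max_right _ _)) hp
  have hp3 : N₃ < p := lt_of_le_of_lt ((le_max_right _ _).trans (le_max_right _ _)) hp
  set P : ℝ := (p : ℝ) with hP
  have hpr : p.Prime := Fact.out
  have hP1' : 1 < P := by rw [hP]; exact_mod_cast hpr.one_lt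
  have hP1 : 1 ≤ P := hP1'.le
  have hP0 : 0 < P := by linarith
  set t : ℝ := P ^ η with ht
  set u : ℝ := P ^ (η / 2) with hu
  set r4 : ℝ := P ^ (1 / 4 : ℝ) with hr4
  have hr0 : 0 < r4 := by rw [hr4]; positivity
  have hr1 : 1 ≤ r4 := by rw [hr4]; exact Real.one_le_rpow hP1 (by norm_num)
  have hrr : r4 ^ 4 = P := by
    rw [hr4, ← Real.rpow_natCast, ← Real.rpow_mul hP0.le]
    norm_num
  have hut : u ^ 2 = t := by
    rw [hu, ht, ← Real.rpow_natCast, ← Real.rpow_mul hP0.le]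
    congr 1
    push_cast
    ring
  have hu2 : 2 ≤ u := hN₁ p hp1
  have ht4 : 4 ≤ t := by
    rw [← hut]
    have h1 : (2 : ℝ) ^ 2 ≤ u ^ 2 := pow_le_pow_left₀ (by norm_num) hu2 2
    linarith [show (2 : ℝ) ^ 2 = 4 by norm_num]
  have ht0 : 0 < t := by linarith
  have ht1 : 1 ≤ t := by linarith
  have htn : ∀ n : ℕ, P ^ (η * n) = t ^ n := by
    intro n
    rw [ht, ← Real.rpow_natCast, ← Real.rpow_mul hP0.le]
  have htε : P ^ ε = t ^ 120 := by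
    rw [← htn 120]
    congr 1
    rw [hη]
    push_cast
    ring
  have ht10 : P ^ (ε / 12) = t ^ 10 := by
    rw [← htn 10]
    congr 1
    rw [hη]
    push_cast
    ring
  have ht60 : P ^ (60 * η) = t ^ 60 := by
    rw [← htn 60]
    congr 1
    push_cast
    ring
  set q : ℝ := (Q : ℝ) with hq
  set M : ℝ := (B.card : ℝ) with hM
  have hM0' : 0 ≤ M := by rw [hM]; positivity
  have hqt : t ^ 120 ≤ q := by rw [← htε]; exact hQε
  have hq0 : 0 < q := lt_of_lt_of_le (by positivity) hqt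
  have hq2 : q ^ 2 ≤ r4 * t ^ 10 := by
    rw [← ht10, hr4, ← Real.rpow_add hP0]
    exact hQ2
  have hr3 : P ^ (3 / 4 : ℝ) = r4 ^ 3 := by
    rw [hr4, ← Real.rpow_natCast, ← Real.rpow_mul hP0.le]
    norm_num
  have hqM : r4 ^ 3 * t ^ 120 ≤ q ^ 4 * M := by
    rw [← htε, ← hr3, ← Real.rpow_add hP0]
    exact hQB
  have hqM0 : 0 < q ^ 4 * M := lt_of_lt_of_le (by positivity) hqM
  have hM0 : 0 < M := by
    rcases hM0'.lt_or_eq with h | h
    · exact h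
    · rw [← h, mul_zero] at hqM0; exact absurd hqM0 (lt_irrefl _)
  have hB1 : 1 ≤ B.card := by
    have h1 : (0 : ℝ) < (B.card : ℝ) := hM0
    exact_mod_cast h1
  -- the exponent is small
  have hεs : ε ≤ 3 / 23 := by
    have h1 : P ^ (2 * ε) ≤ P ^ (1 / 4 + ε / 12) := by
      have h2 : P ^ (2 * ε) = (P ^ ε) ^ 2 := by
        rw [← Real.rpow_natCast, ← Real.rpow_mul hP0.le]
        congr 1
        push_cast
        ring
      rw [h2]
      refine le_trans ?_ hQ2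
      gcongr
    have h3 := (Real.rpow_le_rpow_left_iff hP1').1 h1
    linarith
  have hq4 : q ^ 4 ≤ P := by
    have h1 : q ^ 4 ≤ (P ^ (1 / 4 + ε / 12)) ^ 2 := by
      calc q ^ 4 = (q ^ 2) ^ 2 := by ring
        _ ≤ _ := by gcongr
    refine h1.trans ?_
    rw [← Real.rpow_natCast, ← Real.rpow_mul hP0.le]
    calc P ^ ((1 / 4 + ε / 12) * ((2 : ℕ) : ℝ)) ≤ P ^ (1 : ℝ) := by
          refine Real.rpow_le_rpow_of_exponent_le hP1 ?_
          push_cast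
          linarith
      _ = P := Real.rpow_one P
  -- M is large
  have hMr : r4 * t ^ 100 ≤ M := by
    have h1 : q ^ 4 ≤ r4 ^ 2 * t ^ 20 := by
      calc q ^ 4 = (q ^ 2) ^ 2 := by ring
        _ ≤ (r4 * t ^ 10) ^ 2 := by gcongr
        _ = r4 ^ 2 * t ^ 20 := by ring
    have h2 : (r4 ^ 2 * t ^ 20) * (r4 * t ^ 100) ≤ (r4 ^ 2 * t ^ 20) * M := by
      calc (r4 ^ 2 * t ^ 20) * (r4 * t ^ 100) = r4 ^ 3 * t ^ 120 := by ring
        _ ≤ q ^ 4 * M := hqM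
        _ ≤ (r4 ^ 2 * t ^ 20) * M := by gcongr
    exact le_of_mul_le_mul_left h2 (by positivity)
  have ht100 : 1 ≤ t ^ 100 := one_le_pow₀ ht1
  have hMr' : r4 ≤ M := by
    refine le_trans ?_ hMr
    exact le_mul_of_one_le_right hr0.le ht100
  -- the parameters
  set W : ℕ := ⌊t⌋₊ with hW
  have hWt : (W : ℝ) ≤ t := Nat.floor_le ht0.le
  have hWu : u ≤ (W : ℝ) := by
    have h1 : t < (W : ℝ) + 1 := Nat.lt_floor_add_one t
    have h2 : 2 * u ≤ u * u := mul_le_mul_of_nonneg_right hu2 (by linarith)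
    have h3 : u * u = t := by rw [← hut]; ring
    linarith
  have hW1 : 1 ≤ W := by
    have : (1 : ℝ) ≤ W := by linarith
    exact_mod_cast this
  have hWk : p ≤ W ^ k := by
    have h1 : P ≤ (W : ℝ) ^ k := by
      calc P = P ^ (1 : ℝ) := (Real.rpow_one P).symm
        _ ≤ P ^ (η / 2 * k) := Real.rpow_le_rpow_of_exponent_le hP1 (by linarith)
        _ = u ^ k := by rw [hu, ← Real.rpow_natCast, ← Real.rpow_mul hP0.le]
        _ ≤ (W : ℝ) ^ k := pow_le_pow_left₀ (by linarith) hWu k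
    rw [hP] at h1
    exact_mod_cast h1
  set L : ℕ := min ⌊q / t ^ 2⌋₊ ⌊r4 / (8 * q)⌋₊ with hL
  have hLle1 : (L : ℝ) ≤ q / t ^ 2 := by
    have h1 : (L : ℝ) ≤ (⌊q / t ^ 2⌋₊ : ℝ) := by exact_mod_cast min_le_left _ _
    exact h1.trans (Nat.floor_le (by positivity))
  have hLle2 : (L : ℝ) ≤ r4 / (8 * q) := by
    have h1 : (L : ℝ) ≤ (⌊r4 / (8 * q)⌋₊ : ℝ) := by exact_mod_cast min_le_right _ _
    exact h1.trans (Nat.floor_le (by positivity))
  -- lower bound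
  have hq8 : 2 ≤ q / (8 * t ^ 10) := by
    rw [le_div_iff₀ (by positivity)]
    refine le_trans ?_ hqt
    have h5 : (4 : ℝ) ^ 2 ≤ t ^ 2 := pow_le_pow_left₀ (by norm_num) ht4 2
    calc 2 * (8 * t ^ 10) = 4 ^ 2 * t ^ 10 := by ring
      _ ≤ t ^ 2 * t ^ 10 := by gcongr
      _ = t ^ 12 * 1 := by ring
      _ ≤ t ^ 12 * t ^ 108 := by
          have : 1 ≤ t ^ 108 := one_le_pow₀ ht1
          gcongr
      _ = t ^ 120 := by ring
  have hfl : ∀ a : ℝ, q / (8 * t ^ 10) ≤ a → q / (16 * t ^ 10) ≤ (⌊a⌋₊ : ℝ) := by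
    intro a ha
    have h1 : a < (⌊a⌋₊ : ℝ) + 1 := Nat.lt_floor_add_one _
    have h2 : q / (16 * t ^ 10) = (q / (8 * t ^ 10)) / 2 := by
      field_simp
      norm_num
    rw [h2]
    linarith
  have hLge : q / (16 * t ^ 10) ≤ (L : ℝ) := by
    rw [hL, Nat.cast_min]
    refine le_min (hfl _ ?_) (hfl _ ?_)
    · have h1 : t ^ 2 ≤ 8 * t ^ 10 := by
        have h2 : 1 ≤ t ^ 8 := one_le_pow₀ ht1
        calc t ^ 2 = 1 * t ^ 2 * 1 := by ring
          _ ≤ 8 * t ^ 2 * t ^ 8 := by gcongr; norm_num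
          _ = 8 * t ^ 10 := by ring
      gcongr
    · rw [div_le_div_iff₀ (by positivity) (by positivity)]
      calc q * (8 * q) = 8 * q ^ 2 := by ring
        _ ≤ 8 * (r4 * t ^ 10) := by gcongr
        _ = r4 * (8 * t ^ 10) := by ring
  have hL1r : (1 : ℝ) ≤ L := by
    have h2 : q / (16 * t ^ 10) = (q / (8 * t ^ 10)) / 2 := by
      field_simp
      norm_num
    rw [h2] at hLge
    linarith
  have hL1 : 1 ≤ L := by exact_mod_cast hL1r
  have hLW : L * W ≤ Q := by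
    have h1 : (L : ℝ) * W ≤ q := by
      calc (L : ℝ) * W ≤ q / t ^ 2 * t := by gcongr
        _ = q / t := by field_simp
        _ ≤ q / 1 := by gcongr
        _ = q := div_one q
    rw [hq] at h1
    exact_mod_cast h1
  have hQLr : 2 * q * (L : ℝ) ≤ r4 / 4 := by
    calc 2 * q * (L : ℝ) ≤ 2 * q * (r4 / (8 * q)) := by gcongr
      _ = r4 / 4 := by field_simp; norm_num
  have hr4P : r4 ≤ P := by
    rw [← hrr]
    exact le_self_pow₀ hr1 (by norm_num)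
  have hQL : 2 * Q * L < p := by
    have h1 : 2 * q * (L : ℝ) < P := by linarith
    rw [hq, hP] at h1
    exact_mod_cast h1
  -- the divisor bound
  set D : ℕ := ⌊C₂' * t⌋₊ with hD
  have hDle : (D : ℝ) ≤ C₂' * t := Nat.floor_le (by positivity)
  have hDdiv : ∀ n : ℕ, 1 ≤ n → n ≤ 4 * Q ^ 4 → n.divisors.card ≤ D := by
    intro n hn1 hn2
    refine Nat.le_floor ?_
    refine (hdiv n (by omega)).trans ?_
    have h1 : (n : ℝ) ≤ 4 * P := by
      have h2 : (n : ℝ) ≤ 4 * q ^ 4 := by rw [hq]; exact_mod_cast hn2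
      linarith
    calc C₂ * (n : ℝ) ^ η ≤ C₂ * (4 * P) ^ η := by gcongr
      _ = C₂' * t := by
        rw [Real.mul_rpow (by norm_num) hP0.le, hC₂', ht]
        ring
  -- the energy bound
  set s : ℝ := 2 * C₁ * t * M ^ 3 / r4 with hs
  have hcnt : ∀ G : ℕ, 1 ≤ G → G ≤ 2 * Q * L → (cnt B.offDiag (rp p) G : ℝ) ≤ s * (G : ℝ) ^ 2 := by
    intro G hG1 hG2
    have hGr : (G : ℝ) ≤ r4 / 4 := by
      refine le_trans ?_ hQLr
      rw [hq]
      exact_mod_cast hG2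
    have h7 : 28 * G ^ 4 < p := by
      have h1 : 28 * (G : ℝ) ^ 4 < P := by
        have h2 : (G : ℝ) ^ 4 ≤ (r4 / 4) ^ 4 := by gcongr
        have h3 : 28 * (r4 / 4) ^ 4 = 28 / 256 * r4 ^ 4 := by ring
        rw [hrr] at h3
        linarith
      rw [hP] at h1
      exact_mod_cast h1
    have h1 := ((hen p G B hG1).2 h7)
    have h5 : 1 + M / r4 ≤ 2 * M / r4 := by
      rw [le_div_iff₀ hr0, add_mul, div_mul_cancel₀ _ hr0.ne']
      linarith
    refine h1.trans ?_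
    have hC0 : 0 ≤ C₁ := by linarith
    calc C₁ * t * (1 + M / r4) * (G : ℝ) ^ 2 * M ^ 2 ≤ C₁ * t * (2 * M / r4) * (G : ℝ) ^ 2 * M ^ 2 := by
          gcongr
      _ = s * (G : ℝ) ^ 2 := by rw [hs]; ring
  -- the logarithm
  set lg : ℝ := 1 + (Nat.log 2 (2 * Q * L) : ℝ) with hlg
  have hlg0 : 0 ≤ lg := by rw [hlg]; positivity
  have hlgle : lg ≤ C₃ * t := by
    have h1 : Nat.log 2 (2 * Q * L) ≤ Nat.log 2 p := Nat.log_mono_right hQL.le
    have h2 : (2 : ℝ) ^ (Nat.log 2 p) ≤ P := by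
      rw [hP]
      exact_mod_cast Nat.pow_log_le_self 2 hpr.ne_zero
    have h3 : (Nat.log 2 p : ℝ) * Real.log 2 ≤ Real.log P := by
      rw [← Real.log_pow]
      exact Real.log_le_log (by positivity) h2
    have h4 : Real.log P ≤ t / η := by
      rw [ht]
      exact Real.log_le_rpow_div hP0.le hη0
    have h5 : (1 / 2 : ℝ) ≤ Real.log 2 := by linarith [Real.log_two_gt_d9]
    have h6 : (Nat.log 2 p : ℝ) * (1 / 2) ≤ t / η := by
      have h7 : (Nat.log 2 p : ℝ) * (1 / 2) ≤ (Nat.log 2 p : ℝ) * Real.log 2 := by gcongr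
      linarith
    have h8 : (Nat.log 2 (2 * Q * L) : ℝ) ≤ (Nat.log 2 p : ℝ) := by exact_mod_cast h1
    have h10 : (2 / η : ℝ) * t = 2 * (t / η) := by ring
    rw [hlg, hC₃, add_mul, one_mul, h10]
    linarith
  -- the core inequality
  have hcore := hFNC p χ hχ B β hβ Q L W k D s hL1 hW1 hk1 hLW hQL hWk hB1 hDdiv hcnt
  have hphi := FN2X_phi K C₁ C₂' C₃ t r4 q M L s D lg hK0 (by linarith) hC₂'0 hC₃0 ht0 hr0 hq0 hM0
    hLge hs (by positivity) hDle hlg0 hlgle hqM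
  rw [hrr] at hphi
  have hphi2 : K * (D : ℝ) ^ 2 * lg * s * P / (q * (L : ℝ) ^ 3 * M ^ 4) ≤ P ^ (-(60 * η)) := by
    refine hphi.trans ?_
    rw [Real.rpow_neg hP0.le, ht60, ← one_div, div_le_div_iff₀ (by positivity) (by positivity)]
    have h1 := hN₂ p hp2
    have h2 : P ^ (η * 26) = t ^ 26 := by
      rw [← htn 26]
      congr 1
    rw [← hP, h2] at h1
    calc 8192 * K * C₁ * C₂' ^ 2 * C₃ * t ^ 60 ≤ t ^ 26 * t ^ 60 := by gcongr
      _ = 1 * t ^ 86 := by ring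
  have hphi0 : 0 ≤ K * (D : ℝ) ^ 2 * lg * s * P / (q * (L : ℝ) ^ 3 * M ^ 4) := by
    have hs0 : 0 ≤ s := by rw [hs]; positivity
    positivity
  have hpow : (K * (D : ℝ) ^ 2 * lg * s * P / (q * (L : ℝ) ^ 3 * M ^ 4)) ^ (1 / (2 * (k : ℝ))) ≤
      P ^ (-γ) := by
    refine (Real.rpow_le_rpow hphi0 hphi2 (by positivity)).trans ?_
    rw [← Real.rpow_mul hP0.le]
    refine Real.rpow_le_rpow_of_exponent_le hP1 ?_
    have h1 : -(60 * η) * (1 / (2 * (k : ℝ))) = -(60 * η / (2 * k)) := by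
      field_simp
    rw [h1]
    linarith
  -- the other terms
  have hMθ : 1 / M ≤ P ^ (-γ) := by
    have h1 : t ^ 60 ≤ M := by
      refine le_trans ?_ hMr
      calc t ^ 60 = 1 * (t ^ 60 * 1) := by ring
        _ ≤ r4 * (t ^ 60 * t ^ 40) := by
            have : 1 ≤ t ^ 40 := one_le_pow₀ ht1
            gcongr
        _ = r4 * t ^ 100 := by ring
    rw [← ht60] at h1
    calc 1 / M ≤ 1 / P ^ (60 * η) := by gcongr
      _ = P ^ (-(60 * η)) := by rw [Real.rpow_neg hP0.le, one_div]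
      _ ≤ P ^ (-γ) := Real.rpow_le_rpow_of_exponent_le hP1 (by linarith)
  have hLγ : 1 / (L : ℝ) ≤ P ^ (-γ) := by
    have h1 : P ^ (60 * η) ≤ L := by
      rw [ht60]
      refine le_trans ?_ hLge
      rw [le_div_iff₀ (by positivity)]
      refine le_trans ?_ hqt
      have h5 : (4 : ℝ) ^ 2 ≤ t ^ 2 := pow_le_pow_left₀ (by norm_num) ht4 2
      calc t ^ 60 * (16 * t ^ 10) = 4 ^ 2 * t ^ 70 := by ring
        _ ≤ t ^ 2 * t ^ 70 := by gcongr
        _ = t ^ 72 * 1 := by ring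
        _ ≤ t ^ 72 * t ^ 48 := by
            have : 1 ≤ t ^ 48 := one_le_pow₀ ht1
            gcongr
        _ = t ^ 120 := by ring
    calc 1 / (L : ℝ) ≤ 1 / P ^ (60 * η) := by gcongr
      _ = P ^ (-(60 * η)) := by rw [Real.rpow_neg hP0.le, one_div]
      _ ≤ P ^ (-γ) := Real.rpow_le_rpow_of_exponent_le hP1 (by linarith)
  have hPγ0 : 0 < P ^ (-γ) := by positivity
  have hS : S1 p χ B β Q ^ 2 ≤ (P ^ (-(γ / 4)) * q ^ 2 * M) ^ 2 := by
    refine hcore.trans ?_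
    have e1 : 9 * q ^ 4 * (M + 4 * M ^ 2 / (L : ℝ)) =
        q ^ 4 * M ^ 2 * (9 * (1 / M) + 36 * (1 / (L : ℝ))) := by
      have hL0 : (L : ℝ) ≠ 0 := by positivity
      field_simp
      ring
    have e2 : (P ^ (-(γ / 4)) * q ^ 2 * M) ^ 2 = q ^ 4 * M ^ 2 * P ^ (-(γ / 2)) := by
      have : P ^ (-(γ / 2)) = (P ^ (-(γ / 4))) ^ 2 := by
        rw [← Real.rpow_natCast, ← Real.rpow_mul hP0.le]
        congr 1
        push_cast
        ring
      rw [this]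
      ring
    have e3 : 126 * P ^ (-γ) ≤ P ^ (-(γ / 2)) := by
      have h1 := hN₃ p hp3
      rw [← hP] at h1
      have h2 : P ^ (-(γ / 2)) = P ^ (γ / 2) * P ^ (-γ) := by
        rw [← Real.rpow_add hP0]
        congr 1
        ring
      rw [h2]
      gcongr
    rw [e2]
    have e4 : 9 * q ^ 4 * (M + 4 * M ^ 2 / (L : ℝ)) + 81 * q ^ 4 * M ^ 2 *
        (K * (D : ℝ) ^ 2 * lg * s * P / (q * (L : ℝ) ^ 3 * M ^ 4)) ^ (1 / (2 * (k : ℝ))) ≤
        q ^ 4 * M ^ 2 * (126 * P ^ (-γ)) := by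
      rw [e1]
      have h0 : 0 ≤ q ^ 4 * M ^ 2 := by positivity
      have h1 : q ^ 4 * M ^ 2 * (9 * (1 / M) + 36 * (1 / (L : ℝ))) ≤
          q ^ 4 * M ^ 2 * (9 * P ^ (-γ) + 36 * P ^ (-γ)) := by gcongr
      have h2 : 81 * q ^ 4 * M ^ 2 *
          (K * (D : ℝ) ^ 2 * lg * s * P / (q * (L : ℝ) ^ 3 * M ^ 4)) ^ (1 / (2 * (k : ℝ))) ≤
          81 * q ^ 4 * M ^ 2 * P ^ (-γ) := by gcongr
      calc _ ≤ q ^ 4 * M ^ 2 * (9 * P ^ (-γ) + 36 * P ^ (-γ)) + 81 * q ^ 4 * M ^ 2 * P ^ (-γ) :=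
            add_le_add h1 h2
        _ = q ^ 4 * M ^ 2 * (126 * P ^ (-γ)) := by ring
    refine e4.trans ?_
    gcongr
  have hS0 : 0 ≤ S1 p χ B β Q := by
    unfold S1
    positivity
  exact (pow_le_pow_iff_left₀ hS0 (by positivity) (by norm_num)).1 hS

end Pool.Agent.helper68.FY
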